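import Pool.Agent.helper93.VN.SpecL
import Pool.Agent.helper80.VQ.SpecFL

/-!
# Row vn:LVS (solutions of the variational equation along a curve)
-/

set_option autoImplicit false

open scoped MatrixGroups ContDiff Topology UpperHalfPlane ComplexConjugate ENNReal
open UpperHalfPlane MeasureTheory Filter Set

namespace Pool.Agent.VN

open Pool.Agent.RS Pool.Agent.VQ

theorem LVS_pot {Γ : Subgroup SL(2, ℝ)} {k : ℝ} {B : ℕ → ℝ} {U : ℍ → ℝ} (h : PotN Γ k B U) : Pg Γ k B U := by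
  refine ⟨h.kpos.1, h.smooth, h.inv, fun z => ?_, h.bd⟩
  have := h.lo z
  have := h.kpos.1
  linarith

theorem LVS_okg {Γ : Subgroup SL(2, ℝ)} {k : ℝ} {B : ℕ → ℝ} {D : Dyn} (h : OKN Γ k B D) : OKG Γ k B D :=
  ⟨LVS_pot h.pot, h.fl0, h.out, h.dfl, h.cfl, h.Y0, h.P0, h.S0, h.a0, h.dY, h.dP, h.dS, h.da, h.cY, h.cP, h.cS, h.ca⟩

theorem LVS_cont {γ : ℝ → SL(2, ℝ)} (h : ∀ i j, Continuous fun s => (γ s).1 i j) : Continuous γ :=
  continuous_induced_rng.2 (continuous_matrix fun i j => h i j)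

theorem LVS_proof (hFLC : VQ.FLC_stmt) : LVS_stmt := by
  intro Γ k B D hD E γ x b c hE hC
  obtain ⟨w, hw, h1, h2⟩ := hFLC Γ k B D (LVS_okg hD)
  have hγ : Continuous γ := LVS_cont fun i j => continuous_iff_continuousAt.2 fun v => (hC.der v i j).continuousAt
  have hwc : ∀ t i j, Continuous fun v => w E t (γ v) i j := by
    intro t i j
    have h3 : Continuous fun v : ℝ => ((E, t, γ v) : ℝ × ℝ × SL(2, ℝ)) :=
      continuous_const.prodMk (continuous_const.prodMk hγ)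
    exact (hw i j).comp_continuous h3 fun v => hE
  have hx := hC.cx
  have hb := hC.cb
  have hc := hC.cc
  refine ⟨fun t v => w E t (γ v) 0 0 * x v + w E t (γ v) 0 1 * b v + w E t (γ v) 0 2 * c v,
    fun t v => w E t (γ v) 1 0 * x v + w E t (γ v) 1 1 * b v + w E t (γ v) 1 2 * c v,
    fun t v => w E t (γ v) 2 0 * x v + w E t (γ v) 2 1 * b v + w E t (γ v) 2 2 * c v, ?_, ?_, ?_⟩
  · intro v
    have h0 := (h1 E (γ v) hE).1
    simp only [h0]
    refine ⟨?_, ?_, ?_⟩ <;> simp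
  · intro v
    exact (h1 E (γ v) hE).2 (x v) (b v) (c v)
  · intro t
    refine ⟨fun v i j => h2 E t hE γ v (x v) (b v) (c v) (fun i j => hC.der v i j) i j, ?_, ?_, ?_⟩
    · exact (((hwc t 0 0).mul hx).add ((hwc t 0 1).mul hb)).add ((hwc t 0 2).mul hc)
    · exact (((hwc t 1 0).mul hx).add ((hwc t 1 1).mul hb)).add ((hwc t 1 2).mul hc)
    · exact (((hwc t 2 0).mul hx).add ((hwc t 2 1).mul hb)).add ((hwc t 2 2).mul hc)

end Pool.Agent.VN
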