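import Pool.Agent.helper99.VN.SpecU
import Pool.Agent.helper75.VQ.PIV

/-!
# Project VN (MP_07c750_an), row PIVN: detection (adaptation of helper75/VQ/PIV.lean)
-/

set_option autoImplicit false

open scoped MatrixGroups ContDiff Topology UpperHalfPlane ComplexConjugate ENNReal
open UpperHalfPlane MeasureTheory Filter Set

namespace Pool.Agent.VN

open Pool.Agent.RS Pool.Agent.VQ
open Pool.Agent.RPQ (CEig mean VV IsOp IsMul OProj wrd PJ nst mks MO Net Cl)
open Pool.Agent.RPQ (PIG_aadd PIG_a0 PIG_dI PIG_smul PIG_dg PIG_ccd PIG_php)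

/-- orbits -/
structure PIVN_Orb (CF : ℝ) (q : ℝ → SL(2, ℝ)) (r : ℝ → ℝ) : Prop where
  r0 : ∀ s, 1 / CF ≤ r s ∧ r s ≤ CF
  pos : ∀ s v, |v| ≤ 1 → dist (q (s + v) • I : ℍ) ((q s * aM (r s * v)) • I) ≤ CF * v ^ 2
  nr : ∀ s v e, 0 < e → e ≤ 1 → |v| ≤ e → EN.nr (CF * e) ((q s)⁻¹ * q (s + v))

theorem PIVN_orb (CF : ℝ) (D : Dyn) (E : ℝ) (g : SL(2, ℝ)) (c : ℝ)
    (hF : ∀ g : SL(2, ℝ), 1 / CF ≤ rho D.U E g ∧ rho D.U E g ≤ CF ∧
      ∀ s u : ℝ, 0 < s → s ≤ 1 → |u| ≤ s → EN.nr (CF * s) (g⁻¹ * D.fl E u g) ∧ dist (D.fl E u g • I : ℍ) ((g * aM (rho D.U E g * u)) • I) ≤ CF * u ^ 2)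
    (hA : ∀ (s t : ℝ) (g : SL(2, ℝ)), D.fl E (s + t) g = D.fl E s (D.fl E t g)) :
    PIVN_Orb CF (fun s => D.fl E (s - c) g) (fun s => rho D.U E (D.fl E (s - c) g)) := by
  have e : ∀ s v : ℝ, D.fl E (s + v - c) g = D.fl E v (D.fl E (s - c) g) := by
    intro s v
    rw [← hA]
    congr 1
    ring
  refine ⟨fun s => ⟨(hF _).1, (hF _).2.1⟩, fun s v hv => ?_, fun s v ε h0 h1 hv => ?_⟩
  · simp only [e]
    exact ((hF _).2.2 1 v one_pos le_rfl hv).2
  · simp only [e]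
    exact ((hF _).2.2 ε v h0 h1 hv).1

theorem PIVN_up {CF : ℝ} (hCF : 1 ≤ CF) {q : ℝ → SL(2, ℝ)} {r : ℝ → ℝ} (h : PIVN_Orb CF q r) (s s' : ℝ) (h1 : |s' - s| ≤ 1) (h2 : CF * |s' - s| ≤ 1) :
    dist (q s' • I : ℍ) (q s • I) ≤ 2 * CF * |s' - s| := by
  have hCF0 : 0 < 1 / CF := by positivity
  have e : s' = s + (s' - s) := by ring
  have a1 := h.pos s (s' - s) h1
  rw [← e] at a1
  have a2 := PIG_dg (q s) (r s * (s' - s)) 0
  rw [PIG_a0, mul_one, sub_zero, abs_mul, abs_of_nonneg (by linarith [(h.r0 s).1])] at a2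
  have a3 := dist_triangle (q s' • I : ℍ) ((q s * aM (r s * (s' - s))) • I) (q s • I)
  have a4 : r s * |s' - s| ≤ CF * |s' - s| := mul_le_mul_of_nonneg_right (h.r0 s).2 (abs_nonneg _)
  have a5 : CF * (s' - s) ^ 2 ≤ |s' - s| := by
    rw [← sq_abs, pow_two, ← mul_assoc]
    exact (mul_le_mul_of_nonneg_right h2 (abs_nonneg _)).trans_eq (one_mul _)
  have a6 : |s' - s| ≤ CF * |s' - s| := le_mul_of_one_le_left (abs_nonneg _) hCF
  linarith

theorem PIVN_lo {CF : ℝ} (hCF : 1 ≤ CF) {q : ℝ → SL(2, ℝ)} {r : ℝ → ℝ} (h : PIVN_Orb CF q r) (s s' : ℝ) (h1 : |s' - s| ≤ 1) (h2 : 2 * CF ^ 2 * |s' - s| ≤ 1) :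
    |s' - s| ≤ 2 * CF * dist (q s' • I : ℍ) (q s • I) := by
  have hCF1 : 0 < CF := by linarith
  have hCF0 : 0 < 1 / CF := by positivity
  have e : s' = s + (s' - s) := by ring
  have a1 := h.pos s (s' - s) h1
  rw [← e] at a1
  have a2 := PIG_dg (q s) (r s * (s' - s)) 0
  rw [PIG_a0, mul_one, sub_zero, abs_mul, abs_of_nonneg (by linarith [(h.r0 s).1])] at a2
  have a3 := dist_triangle ((q s * aM (r s * (s' - s))) • I : ℍ) (q s' • I) (q s • I)
  rw [dist_comm ((q s * aM (r s * (s' - s))) • I : ℍ) (q s' • I)] at a3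
  have a4 : |s' - s| ≤ CF * (r s * |s' - s|) := by
    have h3 : 1 ≤ CF * r s := by
      have := (h.r0 s).1
      rw [div_le_iff₀ hCF1] at this
      linarith
    have := mul_le_mul_of_nonneg_right h3 (abs_nonneg (s' - s))
    linarith
  have a5 : 2 * CF * (CF * (s' - s) ^ 2) ≤ |s' - s| := by
    have h3 : 2 * CF * (CF * (s' - s) ^ 2) = 2 * CF ^ 2 * |s' - s| * |s' - s| := by
      rw [← sq_abs]; ring
    rw [h3]
    exact (mul_le_mul_of_nonneg_right h2 (abs_nonneg _)).trans_eq (one_mul _)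
  have a6 : r s * |s' - s| ≤ dist (q s' • I : ℍ) (q s • I) + CF * (s' - s) ^ 2 := by linarith
  have a7 := mul_le_mul_of_nonneg_left a6 (by linarith : 0 ≤ 2 * CF)
  linarith

theorem PIVN_cont (Γ : Subgroup SL(2, ℝ)) (k : ℝ) (B : ℕ → ℝ) (D : Dyn) (hD : OKN Γ k B D) (E : ℝ) (hE : |E| ≤ k) (g : SL(2, ℝ)) (f : ℍ → ℝ)
    (hf : Continuous f) : Continuous fun s : ℝ => D.U (D.fl E s g • I) * f (D.fl E s g • I) := by
  have h1 : Continuous fun s : ℝ => D.fl E s g :=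
    hD.cfl.comp_continuous (f := fun s : ℝ => (E, s, g)) (by fun_prop) fun s => hE
  have h2 : Continuous fun g : SL(2, ℝ) => (g • I : ℍ) := isProperMap_smul_I.continuous
  have h3 : Continuous D.U := PIG_ccd _ hD.pot.smooth
  exact (h3.comp (h2.comp h1)).mul (hf.comp (h2.comp h1))

theorem PIVN_low (F : ℝ → ℝ) (hF : Continuous F) (h0 : ∀ s, 0 ≤ F s) (t c h k : ℝ) (hh : 0 < h)
    (h1 : 0 ≤ c - h) (h2 : c + h ≤ t) (h3 : ∀ s, |s - c| ≤ h → k ≤ F s) : 2 * h * k ≤ ∫ s in (0 : ℝ)..t, F s := by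
  have i1 : ∀ a b : ℝ, IntervalIntegrable F volume a b := fun a b => hF.intervalIntegrable a b
  have e1 : ∫ s in (0 : ℝ)..t, F s = (∫ s in (0 : ℝ)..(c - h), F s) +
      (∫ s in (c - h)..(c + h), F s) + ∫ s in (c + h)..t, F s := by
    rw [intervalIntegral.integral_add_adjacent_intervals (i1 _ _) (i1 _ _),
      intervalIntegral.integral_add_adjacent_intervals (i1 _ _) (i1 _ _)]
  have e2 : 2 * h * k ≤ ∫ s in (c - h)..(c + h), F s := by
    have e : ∫ s in (c - h)..(c + h), (k : ℝ) = 2 * h * k := by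
      rw [intervalIntegral.integral_const, smul_eq_mul]
      ring
    rw [← e]
    refine intervalIntegral.integral_mono_on (by linarith) intervalIntegrable_const (i1 _ _) fun s hs => ?_
    apply h3
    rw [abs_le]
    constructor <;> linarith [hs.1, hs.2]
  have e3 : 0 ≤ ∫ s in (0 : ℝ)..(c - h), F s := intervalIntegral.integral_nonneg h1 fun s _ => h0 _
  have e4 : 0 ≤ ∫ s in (c + h)..t, F s := intervalIntegral.integral_nonneg h2 fun s _ => h0 _
  rw [e1]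
  linarith

theorem PIVN_proof (hFSTN : FSTN_stmt) (hFLBN : FLBN_stmt) (hTPT : RPQ.TPT_stmt) (hINJ : RPQ.INJ_stmt) : PIVN_stmt := by
  classical
  intro Γ κ kk B hΓ hkk
  obtain ⟨CT, hCT1, hT⟩ := hTPT
  obtain ⟨⟨i0, hi0, hi01, hinj⟩, -⟩ := hINJ Γ hΓ
  obtain ⟨CF, hCF1, hF⟩ := hFSTN Γ kk B hΓ hkk
  have hCT0 : 0 < CT := by linarith
  have hCF0 : 0 < CF := by linarith
  have hCFi : 0 < 1 / CF := by positivity
  obtain ⟨lam, hlam⟩ : ∃ lam : ℝ, lam = min (i0 / (8 * CF)) (1 / (2 * CF ^ 2)) := ⟨_, rfl⟩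
  have hl0 : 0 < lam := by rw [hlam]; exact lt_min (by positivity) (by positivity)
  have hl1 : CF * lam ≤ i0 / 8 := by
    have h : lam ≤ i0 / (8 * CF) := by rw [hlam]; exact min_le_left _ _
    rw [le_div_iff₀ (by positivity)] at h
    linarith
  have hl2 : 2 * CF ^ 2 * lam ≤ 1 := by
    have h : lam ≤ 1 / (2 * CF ^ 2) := by rw [hlam]; exact min_le_right _ _
    rw [le_div_iff₀ (by positivity)] at h
    linarith
  have hCF2 : CF ≤ CF ^ 2 := by
    have := mul_le_mul_of_nonneg_left hCF1 hCF0.le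
    rw [pow_two]; linarith
  have hl3 : 2 * CF * lam ≤ 1 := by
    have := mul_le_mul_of_nonneg_right hCF2 hl0.le
    linarith
  have hl4 : lam ≤ 1 := by
    have := mul_le_mul_of_nonneg_right hCF1 hl0.le
    linarith
  obtain ⟨A0, hA0⟩ : ∃ A0 : ℝ, A0 = CT * CF ^ 6 := ⟨_, rfl⟩
  have hA1 : CF ^ 2 ≤ A0 := by
    rw [hA0]
    have h1 : CF ^ 2 ≤ CF ^ 6 := pow_le_pow_right₀ hCF1 (by norm_num)
    have h2 : 1 * CF ^ 6 ≤ CT * CF ^ 6 := mul_le_mul_of_nonneg_right hCT1 (by positivity)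
    linarith
  have hA2 : 0 < A0 := by rw [hA0]; positivity
  obtain ⟨C, hC⟩ : ∃ C : ℝ, C = CF + 81 * A0 + 2 * (1 / lam + 1) + 48 * CF / kk + 32 * CF := ⟨_, rfl⟩
  have hp1 : 0 < 1 / lam := by positivity
  have hp2 : 0 < 48 * CF / kk := by positivity
  have hC1 : CF + 81 * A0 ≤ C := by rw [hC]; linarith
  have hC2 : 2 * (1 / lam + 1) ≤ C := by rw [hC]; linarith
  have hC4 : 48 * CF / kk ≤ C := by rw [hC]; linarith
  have hC5 : 32 * CF ≤ C := by rw [hC]; linarith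
  have hC3 : 1 ≤ C := by linarith
  refine ⟨C, min (i0 / (8 * CF)) (1 / (216 * A0)), hC3, lt_min (by positivity) (by positivity), ?_, ?_⟩
  · refine (min_le_right _ _).trans ?_
    rw [div_le_one (by positivity)]
    linarith
  intro C0 ρ ρ1 K t J p χ N nc D w w' hD hρ hρ1 hρ10 ht hK hnc hNet hE hUnd s' hs0 hs1
  obtain ⟨hU, hF2⟩ := hF D hD
  have hAdd : ∀ E : ℝ, |E| ≤ kk → ∀ (s t : ℝ) (g : SL(2, ℝ)), D.fl E (s + t) g = D.fl E s (D.fl E t g) := fun E hE =>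
    (hFLBN Γ kk B D hΓ hD E hE).1
  have hU7 : ∀ z, kk ≤ D.U z := fun z => (hU z).1
  have hU0 : ∀ z, 0 ≤ D.U z := fun z => hkk.le.trans (hU7 z)
  have hρa : CF * ρ1 ≤ i0 / 8 := by
    have h := hρ10.trans (min_le_left _ _)
    rw [le_div_iff₀ (by positivity)] at h
    linarith
  have hρb : 216 * A0 * ρ1 ≤ 1 := by
    have := hρ10.trans (min_le_right _ _)
    rw [le_div_iff₀ (by positivity)] at this
    linarith
  have hρe : 216 * CF ^ 2 * ρ1 ≤ 1 := by
    have := mul_le_mul_of_nonneg_right hA1 hρ1.le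
    linarith
  have hρd : 216 * CF * ρ1 ≤ 1 := by
    have := mul_le_mul_of_nonneg_right hCF2 hρ1.le
    linarith
  have hρc : ρ1 ≤ 1 / 216 := by
    have := mul_le_mul_of_nonneg_right hCF1 hρ1.le
    linarith
  have ht0 : 0 < t := by linarith
  have hNt : 0 ≤ (N : ℝ) * t := by positivity
  -- 32 CF ρ ≤ ρ1 ^ 2
  have hncp : 1 / ρ1 ≤ ρ1 / (C * ρ) := by
    have h1 : 1 / ρ1 ≤ C * (N * t + 1) / ρ1 := by
      apply div_le_div_of_nonneg_right _ hρ1.le
      nlinarith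
    have h2 : (0 : ℝ) ≤ nc := Nat.cast_nonneg _
    linarith
  have h32' : 32 * CF * ρ ≤ ρ1 * ρ1 := by
    rw [div_le_div_iff₀ hρ1 (by positivity)] at hncp
    have := mul_le_mul_of_nonneg_right hC5 hρ.le
    linarith
  have h32 : 32 * CF * ρ ≤ ρ1 / 8 := by
    refine h32'.trans ?_
    have := mul_le_mul_of_nonneg_left hρc hρ1.le
    linarith
  have h32a : 32 * ρ ≤ ρ1 / 8 := by
    have := mul_le_mul_of_nonneg_right hCF1 hρ.le
    linarith
  -- the segment of s'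
  set i' := ⌊s' / t⌋₊ with hi'
  have hi'1 : (i' : ℝ) * t ≤ s' := by
    have := Nat.floor_le (div_nonneg hs0 ht0.le)
    rw [← hi', le_div_iff₀ ht0] at this
    exact this
  have hi'2 : s' < (i' + 1) * t := by
    have := Nat.lt_floor_add_one (s' / t)
    rw [← hi', div_lt_iff₀ ht0] at this
    exact this
  have hi'N : i' < N := by
    have h1 : (i' : ℝ) * t < N * t := by linarith
    have h2 : (i' : ℝ) < N := lt_of_mul_lt_mul_right h1 ht0.le
    exact_mod_cast h2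
  have hE' : |(w' i').2| ≤ kk := (hE i' hi'N).2
  have hOq := PIVN_orb CF D (w' i').2 (w' i').1 (i' * t) (fun g => hF2 (w' i').2 g hE') (hAdd _ hE')
  set q : ℝ → SL(2, ℝ) := fun s => D.fl (w' i').2 (s - i' * t) (w' i').1 with hq
  set rq : ℝ → ℝ := fun s => rho D.U (w' i').2 (D.fl (w' i').2 (s - i' * t) (w' i').1) with hrq
  have hfr' : frZ D t w' s' = q s' := rfl
  have hup : ∀ u v : ℝ, |u - v| ≤ ρ1 → dist (q u • I : ℍ) (q v • I) ≤ 2 * CF * |u - v| := by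
    intro u v huv
    refine PIVN_up hCF1 hOq v u (by linarith) ?_
    have := mul_le_mul_of_nonneg_left huv hCF0.le
    linarith
  have hlo : ∀ u v : ℝ, |u - v| ≤ ρ1 → |u - v| ≤ 2 * CF * dist (q u • I : ℍ) (q v • I) := by
    intro u v huv
    refine PIVN_lo hCF1 hOq v u (by linarith) ?_
    have := mul_le_mul_of_nonneg_left huv (by positivity : 0 ≤ 2 * CF ^ 2)
    linarith
  set a := min s' ((i' + 1) * t - ρ1) with ha
  have ha1 : (i' : ℝ) * t ≤ a := le_min hi'1 (by nlinarith)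
  have ha2 : a ≤ s' := min_le_left _ _
  have ha3 : a + ρ1 ≤ (i' + 1) * t := by
    have := min_le_right s' ((i' + 1) * t - ρ1)
    linarith
  have ha4 : s' ≤ a + ρ1 := by
    rcases min_choice s' ((i' + 1) * t - ρ1) with h | h
    · rw [ha, h]; linarith
    · rw [ha, h]; linarith
  set sp : ℕ → ℝ := fun k => a + ρ / 4 + 4 * CF * ρ * k with hsp
  set m := ⌈ρ1 / (8 * CF * ρ)⌉₊ with hm
  have hsk : ∀ k : ℕ, k < m → a + ρ / 4 ≤ sp k ∧ sp k + ρ / 4 ≤ a + ρ1 := by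
    intro k hk
    rw [hm, Nat.lt_ceil, lt_div_iff₀ (by positivity)] at hk
    have h0 : (0 : ℝ) ≤ 4 * CF * ρ * k := by positivity
    simp only [hsp]
    constructor
    · linarith
    · linarith
  -- the points of the net
  have hcov : ∀ k : ℕ, ∃ (j : Fin J) (γ : Γ), dist (q (sp k) • I : ℍ) ((γ : SL(2, ℝ)) • p j) ≤ ρ / 4 := fun k => hNet.cover _
  choose jj γγ hjj using hcov
  have hΓinj : ∀ (γ η : Γ) (z : ℍ), dist ((γ : SL(2, ℝ)) • z : ℍ) ((η : SL(2, ℝ)) • z) < i0 → γ = η := by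
    intro γ η z hz
    have h1 : dist (((η⁻¹ * γ : Γ) : SL(2, ℝ)) • z : ℍ) z < i0 := by
      have e : dist (((η⁻¹ * γ : Γ) : SL(2, ℝ)) • z : ℍ) z = dist ((γ : SL(2, ℝ)) • z : ℍ) ((η : SL(2, ℝ)) • z) := by
        rw [← PIG_smul (η : SL(2, ℝ)) _ z, ← mul_smul]
        congr 2
        push_cast
        group
      rw [e]; exact hz
    have h2 := hinj _ _ h1
    exact (inv_mul_eq_one.mp h2).symm
  have hjinj : ∀ k k' : ℕ, k < k' → k' < m → jj k ≠ jj k' := by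
    intro k k' hkk hk' hj
    obtain ⟨a1, a2⟩ := hsk k (hkk.trans hk')
    obtain ⟨b1, b2⟩ := hsk k' hk'
    have d1 := hjj k
    have d2 := hjj k'
    rw [← hj] at d2
    have d4 : |sp k - sp k'| ≤ ρ1 := by
      rw [abs_le]; constructor <;> linarith
    have d3 := hup (sp k) (sp k') d4
    have d3' := hlo (sp k) (sp k') d4
    have d5 : 2 * CF * |sp k - sp k'| ≤ i0 / 4 := by
      have := mul_le_mul_of_nonneg_left d4 hCF0.le
      linarith
    have d6 : 32 * ρ ≤ i0 / 8 := by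
      have := mul_le_mul_of_nonneg_right hCF1 hρ1.le
      linarith
    have hγ : γγ k = γγ k' := by
      apply hΓinj _ _ (p (jj k))
      have t1 := dist_triangle ((γγ k : SL(2, ℝ)) • p (jj k) : ℍ) (q (sp k) • I) ((γγ k' : SL(2, ℝ)) • p (jj k))
      have t2 := dist_triangle (q (sp k) • I : ℍ) (q (sp k') • I) ((γγ k' : SL(2, ℝ)) • p (jj k))
      rw [dist_comm] at d1
      linarith
    rw [← hγ] at d2
    have t3 := dist_triangle (q (sp k) • I : ℍ) ((γγ k : SL(2, ℝ)) • p (jj k)) (q (sp k') • I)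
    rw [dist_comm] at d2
    have e1 : sp k' - sp k = 4 * CF * ρ * ((k' : ℝ) - k) := by simp only [hsp]; ring
    have e2 : (1 : ℝ) ≤ (k' : ℝ) - k := by
      have : (k : ℝ) + 1 ≤ k' := by exact_mod_cast hkk
      linarith
    have hCρ : 0 < CF * ρ := by positivity
    have e3 : 4 * CF * ρ ≤ sp k' - sp k := by
      rw [e1]
      have : 4 * CF * ρ * 1 ≤ 4 * CF * ρ * ((k' : ℝ) - k) := mul_le_mul_of_nonneg_left e2 (by positivity)
      linarith
    rw [abs_sub_comm, abs_of_pos (by linarith)] at d3'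
    have e4 : dist (q (sp k) • I : ℍ) (q (sp k') • I) ≤ ρ / 2 := by linarith
    have e5 := mul_le_mul_of_nonneg_left e4 (by linarith : 0 ≤ 2 * CF)
    linarith
  -- the phase of the path of w'
  have hbig : ∀ k : ℕ, k < m → 3 ≤ |thN D (χ (jj k)) K t N w'| := by
    intro k hk
    obtain ⟨a1, a2⟩ := hsk k hk
    have hnn : ∀ z, 0 ≤ χ (jj k) z := fun z => (hNet.bd (jj k) z).1
    have hh0 : 0 < ρ / (16 * CF) := by positivity
    have hh1 : ρ / (16 * CF) ≤ ρ / 16 := by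
      apply div_le_div_of_nonneg_left hρ.le (by norm_num)
      linarith
    have h1 : 2 * (ρ / (16 * CF)) * kk ≤ ∫ s in (0 : ℝ)..t, D.U (D.fl (w' i').2 s (w' i').1 • I) * χ (jj k) (D.fl (w' i').2 s (w' i').1 • I) := by
      apply PIVN_low _ (PIVN_cont Γ _ B D hD _ hE' _ _ (PIG_ccd _ (hNet.smooth _))) (fun s => mul_nonneg (hU0 _) (hnn _)) t (sp k - i' * t) (ρ / (16 * CF)) kk hh0
      · linarith
      · linarith
      · intro s hs
        have h5 : χ (jj k) (D.fl (w' i').2 s (w' i').1 • I) = 1 := by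
          apply hNet.one (jj k) _ (γγ k)
          have d1 := hjj k
          have e : D.fl (w' i').2 s (w' i').1 = q (s + i' * t) := by
            simp only [hq]
            congr 1
            ring
          have e3 : s + i' * t - sp k = s - (sp k - i' * t) := by ring
          have d2 := hup (s + i' * t) (sp k) (by rw [e3]; linarith)
          rw [e3] at d2
          have d7 : 2 * CF * |s - (sp k - i' * t)| ≤ ρ / 8 := by
            have h6 := mul_le_mul_of_nonneg_left hs (by linarith : 0 ≤ 2 * CF)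
            have h7 : 2 * CF * (ρ / (16 * CF)) = ρ / 8 := by field_simp; norm_num
            linarith
          rw [e]
          have t1 := dist_triangle (q (s + i' * t) • I : ℍ) (q (sp k) • I) ((γγ k : SL(2, ℝ)) • p (jj k))
          linarith
        show kk ≤ D.U (D.fl (w' i').2 s (w' i').1 • I) * χ (jj k) (D.fl (w' i').2 s (w' i').1 • I)
        rw [h5, mul_one]
        exact hU7 _
    have h2 := PIV_abs D (χ (jj k)) K t N w' ht0.le hU0 hnn i' hi'N
    have h3 : 48 * CF / kk / ρ / 2 * (2 * (ρ / (16 * CF)) * kk) ≤ |K| / 2 * (∫ s in (0 : ℝ)..t, D.U (D.fl (w' i').2 s (w' i').1 • I) * χ (jj k) (D.fl (w' i').2 s (w' i').1 • I)) := by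
      apply mul_le_mul _ h1 (by positivity) (by positivity)
      have h6 := div_le_div_of_nonneg_right hC4 hρ.le
      linarith
    have h4 : 48 * CF / kk / ρ / 2 * (2 * (ρ / (16 * CF)) * kk) = 3 := by field_simp; norm_num
    linarith
  -- the undetected indices
  set Dt : Set (Fin J) := {j : Fin J | 1 ≤ |thN D (χ j) K t N w - thN D (χ j) K t N w'|} with hDt
  set G := (Finset.range m).filter (fun k => jj k ∉ Dt) with hG
  have hBc : ((Finset.range m).filter (fun k => jj k ∈ Dt)).card < nc := by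
    refine lt_of_le_of_lt ?_ hUnd
    have h1 : ((Finset.range m).filter (fun k => jj k ∈ Dt)).card = (((Finset.range m).filter (fun k => jj k ∈ Dt)).image jj).card := by
      symm
      apply Finset.card_image_of_injOn
      intro k hk k' hk' hkk
      simp only [Finset.coe_filter, Finset.mem_range, mem_ofPred_eq] at hk hk'
      rcases lt_trichotomy k k' with h | h | h
      · exact absurd hkk (hjinj k k' h hk'.1)
      · exact h
      · exact absurd hkk.symm (hjinj k' k h hk.1)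
    rw [h1, ← Set.ncard_coe_finset]
    apply Set.ncard_le_ncard _ (Set.toFinite _)
    intro j hj
    rw [Finset.mem_coe, Finset.mem_image] at hj
    obtain ⟨k, hk, rfl⟩ := hj
    exact (Finset.mem_filter.mp hk).2
  have hGc : (m : ℝ) < G.card + nc := by
    have h1 := Finset.card_filter_add_card_filter_not (s := Finset.range m) (fun k => jj k ∈ Dt)
    rw [Finset.card_range] at h1
    have h2 : m < G.card + nc := by
      have : ((Finset.range m).filter (fun k => ¬ jj k ∈ Dt)).card = G.card := rfl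
      omega
    exact_mod_cast h2
  have hmr : ρ1 / (8 * CF * ρ) ≤ m := Nat.le_ceil _
  -- the times for w
  have hgood : ∀ k : ℕ, ∃ (i : ℕ) (σ : ℝ) (η : Γ), k ∈ G → (i < N ∧ 0 < σ ∧ σ < t ∧
      dist (q (sp k) • I : ℍ) ((η : SL(2, ℝ)) • (D.fl (w i).2 σ (w i).1 • I : ℍ)) ≤ 5 * ρ / 4) := by
    intro k
    by_cases hk : k ∈ G
    · have hk1 := Finset.mem_filter.mp hk
      have hk2 : k < m := Finset.mem_range.mp hk1.1
      have h1 := hbig k hk2
      have h2 : |thN D (χ (jj k)) K t N w - thN D (χ (jj k)) K t N w'| < 1 := by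
        by_contra hcon
        exact hk1.2 (not_lt.mp hcon)
      obtain ⟨i, σ, c1, c2, c3, c4⟩ := PIV_pos D (χ (jj k)) K t N w ht0.le (by
        intro h
        rw [h, zero_sub, abs_neg] at h2
        linarith)
      obtain ⟨γ, hγ⟩ := hNet.supp _ _ c4
      refine ⟨i, σ, γγ k * γ⁻¹, fun _ => ⟨c1, c2, c3, ?_⟩⟩
      have d1 := hjj k
      have e : dist ((γγ k : SL(2, ℝ)) • p (jj k) : ℍ) (((γγ k * γ⁻¹ : Γ) : SL(2, ℝ)) • (D.fl (w i).2 σ (w i).1 • I : ℍ)) ≤ ρ := by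
        have e1 : ((γγ k : SL(2, ℝ)) • p (jj k) : ℍ) = ((γγ k * γ⁻¹ : Γ) : SL(2, ℝ)) • ((γ : SL(2, ℝ)) • p (jj k)) := by
          rw [← mul_smul]
          congr 1
          push_cast
          group
        rw [e1, PIG_smul, dist_comm]
        exact hγ
      have t1 := dist_triangle (q (sp k) • I : ℍ) ((γγ k : SL(2, ℝ)) • p (jj k)) (((γγ k * γ⁻¹ : Γ) : SL(2, ℝ)) • (D.fl (w i).2 σ (w i).1 • I : ℍ))
      linarith
    · exact ⟨0, 0, 1, fun h => absurd h hk⟩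
  choose ii σσ ηη hgd using hgood
  -- pigeonhole
  set L := ⌈1 / ρ1⌉₊ with hL
  have hL1 : 1 / ρ1 ≤ L := Nat.le_ceil _
  have hL2 : (L : ℝ) ≤ 2 / ρ1 := by
    have h1 : (L : ℝ) < 1 / ρ1 + 1 := Nat.ceil_lt_add_one (by positivity)
    have h2 : 1 ≤ 1 / ρ1 := by rw [le_div_iff₀ hρ1]; linarith
    have e : 2 / ρ1 = 1 / ρ1 + 1 / ρ1 := by ring
    rw [e]; linarith
  set Y := Finset.range N ×ˢ Finset.range (⌊t / lam⌋₊ + 1) with hY
  obtain ⟨k, hk, k', hk', hkk, hfk⟩ := PIG_php G Y (fun k => (ii k, ⌊σσ k / lam⌋₊)) L (by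
    intro k hk
    obtain ⟨c1, c2, c3, c4⟩ := hgd k hk
    rw [hY, Finset.mem_product, Finset.mem_range, Finset.mem_range]
    refine ⟨c1, Nat.lt_succ_of_le ?_⟩
    exact Nat.floor_le_floor (div_le_div_of_nonneg_right c3.le hl0.le)) (by
    have h1 : ((Y.card * L : ℕ) : ℝ) < G.card := by
      have h2 : (Y.card : ℝ) ≤ N * t * (1 / lam + 1) := by
        rw [hY, Finset.card_product, Finset.card_range, Finset.card_range]
        push_cast
        have h3 : (⌊t / lam⌋₊ : ℝ) ≤ t / lam := Nat.floor_le (by positivity)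
        have h4 : t / lam = t * (1 / lam) := by ring
        have h5 : (⌊t / lam⌋₊ : ℝ) + 1 ≤ t * (1 / lam + 1) := by
          have h3' : (⌊t / lam⌋₊ : ℝ) ≤ t * (1 / lam) := h3.trans_eq h4
          rw [mul_add, mul_one]
          linarith
        calc (N : ℝ) * ((⌊t / lam⌋₊ : ℝ) + 1) ≤ N * (t * (1 / lam + 1)) := mul_le_mul_of_nonneg_left h5 (Nat.cast_nonneg _)
          _ = N * t * (1 / lam + 1) := by ring
      have h6 : ((Y.card * L : ℕ) : ℝ) ≤ C * (N * t + 1) / ρ1 := by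
        push_cast
        have hi : 0 ≤ 1 / lam + 1 := by positivity
        calc (Y.card : ℝ) * L ≤ (N * t * (1 / lam + 1)) * (2 / ρ1) := mul_le_mul h2 hL2 (Nat.cast_nonneg _) (by positivity)
          _ = (2 * (1 / lam + 1)) * (N * t) / ρ1 := by ring
          _ ≤ C * (N * t + 1) / ρ1 := by
            apply div_le_div_of_nonneg_right _ hρ1.le
            exact mul_le_mul hC2 (by linarith) hNt (by linarith)
      have h7 : ρ1 / (C * ρ) ≤ ρ1 / (8 * CF * ρ) := by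
        apply div_le_div_of_nonneg_left hρ1.le (by positivity)
        apply mul_le_mul_of_nonneg_right _ hρ.le
        linarith
      linarith
    exact_mod_cast h1)
  obtain ⟨c1, c2, c3, c4⟩ := hgd k hk
  obtain ⟨c1', c2', c3', c4'⟩ := hgd k' hk'
  simp only [Prod.mk.injEq] at hfk
  obtain ⟨f1, f2⟩ := hfk
  have hkm : k' < m := Finset.mem_range.mp (Finset.mem_filter.mp hk').1
  have hL0 : 1 ≤ L := by
    rw [hL]; exact Nat.one_le_ceil_iff.mpr (by positivity)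
  have hklt : k < k' := by omega
  obtain ⟨a1, a2⟩ := hsk k (hklt.trans hkm)
  obtain ⟨b1, b2⟩ := hsk k' hkm
  -- the times are close
  have hσ : |σσ k' - σσ k| ≤ lam := by
    have h1 := Nat.floor_le (a := σσ k / lam) (by positivity)
    have h2 := Nat.lt_floor_add_one (σσ k / lam)
    have h3 := Nat.floor_le (a := σσ k' / lam) (by positivity)
    have h4 := Nat.lt_floor_add_one (σσ k' / lam)
    rw [← f2] at h3 h4
    have h5 : |σσ k' / lam - σσ k / lam| ≤ 1 := by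
      rw [abs_le]; constructor <;> linarith
    have h6 : σσ k' / lam - σσ k / lam = (σσ k' - σσ k) / lam := by ring
    rw [h6, abs_div, abs_of_pos hl0, div_le_iff₀ hl0] at h5
    linarith
  rw [← f1] at c4'
  have hEi : |(w (ii k)).2| ≤ kk := (hE (ii k) c1).1
  have hOQ := PIVN_orb CF D (w (ii k)).2 (w (ii k)).1 0 (fun g => hF2 (w (ii k)).2 g hEi) (hAdd _ hEi)
  simp only [sub_zero] at hOQ
  set Q : ℝ → SL(2, ℝ) := fun s => D.fl (w (ii k)).2 s (w (ii k)).1 with hQ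
  set rQ : ℝ → ℝ := fun s => rho D.U (w (ii k)).2 (D.fl (w (ii k)).2 s (w (ii k)).1) with hrQ
  have c5 : dist (q (sp k) • I : ℍ) ((ηη k : SL(2, ℝ)) • (Q (σσ k) • I : ℍ)) ≤ 5 * ρ / 4 := c4
  have c5' : dist (q (sp k') • I : ℍ) ((ηη k' : SL(2, ℝ)) • (Q (σσ k') • I : ℍ)) ≤ 5 * ρ / 4 := c4'
  have hσ2 : CF * |σσ k' - σσ k| ≤ CF * lam := mul_le_mul_of_nonneg_left hσ hCF0.le
  have hQup := PIVN_up hCF1 hOQ (σσ k) (σσ k') (by linarith) (by linarith)
  have hQlo := PIVN_lo hCF1 hOQ (σσ k) (σσ k') (by linarith) (by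
    have := mul_le_mul_of_nonneg_left hσ (by positivity : 0 ≤ 2 * CF ^ 2)
    linarith)
  have hspd : |sp k' - sp k| ≤ ρ1 := by
    rw [abs_le]; constructor <;> linarith
  have hqup := hup (sp k') (sp k) hspd
  -- the same group element
  have hη : ηη k = ηη k' := by
    apply hΓinj _ _ (Q (σσ k) • I)
    have t1 := dist_triangle ((ηη k : SL(2, ℝ)) • (Q (σσ k) • I : ℍ) : ℍ) (q (sp k) • I) ((ηη k' : SL(2, ℝ)) • (Q (σσ k) • I : ℍ))
    have t2 := dist_triangle (q (sp k) • I : ℍ) (q (sp k') • I) ((ηη k' : SL(2, ℝ)) • (Q (σσ k) • I : ℍ))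
    have t3 := dist_triangle (q (sp k') • I : ℍ) ((ηη k' : SL(2, ℝ)) • (Q (σσ k') • I : ℍ)) ((ηη k' : SL(2, ℝ)) • (Q (σσ k) • I : ℍ))
    have t4 : dist ((ηη k' : SL(2, ℝ)) • (Q (σσ k') • I : ℍ) : ℍ) ((ηη k' : SL(2, ℝ)) • (Q (σσ k) • I : ℍ)) ≤ i0 / 4 := by
      rw [PIG_smul]
      linarith
    have t5 : dist ((ηη k : SL(2, ℝ)) • (Q (σσ k) • I : ℍ) : ℍ) (q (sp k) • I) ≤ 5 * ρ / 4 := by
      rw [dist_comm]; exact c5
    have t6 : dist (q (sp k) • I : ℍ) (q (sp k') • I) ≤ i0 / 4 := by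
      rw [dist_comm]
      have := mul_le_mul_of_nonneg_left hspd hCF0.le
      linarith
    have t7 : 32 * ρ ≤ i0 / 8 := by
      have := mul_le_mul_of_nonneg_right hCF1 hρ1.le
      linarith
    linarith
  rw [← hη] at c5'
  -- two points
  obtain ⟨v, hv⟩ : ∃ v : ℝ, v = sp k' - sp k := ⟨_, rfl⟩
  obtain ⟨u, hu⟩ : ∃ u : ℝ, u = σσ k' - σσ k := ⟨_, rfl⟩
  rw [← hv] at hspd hqup
  rw [← hu] at hσ hQup hQlo
  have hDpos : 4 * CF * ρ / ρ1 ≤ v := by
    have e1 : v = 4 * CF * ρ * ((k' : ℝ) - k) := by rw [hv]; simp only [hsp]; ring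
    have e2 : (k : ℝ) + L ≤ k' := by exact_mod_cast hkk
    have e3 : 1 / ρ1 ≤ (k' : ℝ) - k := by linarith
    calc 4 * CF * ρ / ρ1 = 4 * CF * ρ * (1 / ρ1) := by ring
      _ ≤ 4 * CF * ρ * ((k' : ℝ) - k) := mul_le_mul_of_nonneg_left e3 (by positivity)
      _ = v := e1.symm
  have hv0 : 0 < v := lt_of_lt_of_le (by positivity) hDpos
  have hρv1 : 4 * CF * ρ ≤ v * ρ1 := by rwa [div_le_iff₀ hρ1] at hDpos
  have hρv : 4 * ρ ≤ v * ρ1 := by
    have := mul_le_mul_of_nonneg_right hCF1 hρ.le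
    linarith
  rw [abs_of_pos hv0] at hspd hqup
  have hρv2 : v * ρ1 ≤ v / 8 := by
    have := mul_le_mul_of_nonneg_left hρc hv0.le
    linarith
  have huv : |u| ≤ 5 * CF ^ 2 * v := by
    have t4 : dist (Q (σσ k') • I : ℍ) (Q (σσ k) • I) = dist ((ηη k : SL(2, ℝ)) • (Q (σσ k') • I : ℍ) : ℍ) ((ηη k : SL(2, ℝ)) • (Q (σσ k) • I : ℍ)) := by
      rw [PIG_smul]
    have t1 := dist_triangle ((ηη k : SL(2, ℝ)) • (Q (σσ k') • I : ℍ) : ℍ) (q (sp k') • I) ((ηη k : SL(2, ℝ)) • (Q (σσ k) • I : ℍ))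
    have t2 := dist_triangle (q (sp k') • I : ℍ) (q (sp k) • I) ((ηη k : SL(2, ℝ)) • (Q (σσ k) • I : ℍ))
    rw [dist_comm ((ηη k : SL(2, ℝ)) • (Q (σσ k') • I : ℍ) : ℍ) (q (sp k') • I)] at t1
    have t5 : dist (Q (σσ k') • I : ℍ) (Q (σσ k) • I) ≤ 2 * CF * v + v / 4 := by linarith
    have t6 := mul_le_mul_of_nonneg_left t5 (by linarith : 0 ≤ 2 * CF)
    have t7 : CF * v ≤ CF ^ 2 * v := mul_le_mul_of_nonneg_right hCF2 hv0.le
    have t8 : 2 * CF * (2 * CF * v + v / 4) = 4 * (CF ^ 2 * v) + CF * v / 2 := by ring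
    have t9 : 0 < CF ^ 2 * v := by positivity
    linarith
  have hu2 : u ^ 2 ≤ 25 * CF ^ 4 * v ^ 2 := by
    rw [← sq_abs]
    have := pow_le_pow_left₀ (abs_nonneg _) huv 2
    refine this.trans_eq ?_
    ring
  have hrq := hOq.r0 (sp k)
  have hrQ := hOQ.r0 (σσ k)
  obtain ⟨r1, hr1⟩ : ∃ r1 : ℝ, r1 = rq (sp k) := ⟨_, rfl⟩
  obtain ⟨r2, hr2⟩ : ∃ r2 : ℝ, r2 = rQ (σσ k) := ⟨_, rfl⟩
  rw [← hr1] at hrq
  rw [← hr2] at hrQ
  have hP1 : dist (q (sp k') • I : ℍ) ((q (sp k) * aM (r1 * v)) • I) ≤ CF * v ^ 2 := by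
    have h := hOq.pos (sp k) v (by rw [abs_of_pos hv0]; linarith)
    rw [← hr1] at h
    have e : sp k + v = sp k' := by rw [hv]; ring
    rwa [e] at h
  have hP2 : dist (Q (σσ k') • I : ℍ) ((Q (σσ k) * aM (r2 * u)) • I) ≤ CF * u ^ 2 := by
    have h := hOQ.pos (σσ k) u (by linarith)
    rw [← hr2] at h
    have e : σσ k + u = σσ k' := by rw [hu]; ring
    rwa [e] at h
  obtain ⟨h, hh⟩ : ∃ h : SL(2, ℝ), h = (q (sp k))⁻¹ * ((ηη k : SL(2, ℝ)) * Q (σσ k)) := ⟨_, rfl⟩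
  obtain ⟨δ, hδ⟩ : ∃ δ : ℝ, δ = 5 * ρ / 2 + 26 * CF ^ 5 * v ^ 2 := ⟨_, rfl⟩
  have hδ0 : 0 < δ := by rw [hδ]; positivity
  have hCF5 : 1 ≤ CF ^ 5 := one_le_pow₀ hCF1
  have hCF15 : CF ≤ CF ^ 5 := by
    have := pow_le_pow_right₀ hCF1 (by norm_num : 1 ≤ 5)
    rwa [pow_one] at this
  have hδ1 : δ ≤ 27 * CF ^ 5 * (v * ρ1) := by
    rw [hδ]
    have h1 : 26 * CF ^ 5 * v ^ 2 ≤ 26 * CF ^ 5 * (v * ρ1) := by
      apply mul_le_mul_of_nonneg_left _ (by positivity)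
      rw [pow_two]
      exact mul_le_mul_of_nonneg_left hspd hv0.le
    have h2 : v * ρ1 ≤ CF ^ 5 * (v * ρ1) := by
      have := mul_le_mul_of_nonneg_right hCF5 (by positivity : 0 ≤ v * ρ1)
      linarith
    linarith
  have hD1 : v ≤ CF * (r1 * v) := by
    have h3 : 1 ≤ CF * r1 := by
      have := hrq.1
      rw [div_le_iff₀ hCF0] at this
      linarith
    have := mul_le_mul_of_nonneg_right h3 hv0.le
    linarith
  have hr1p : 0 < r1 * v := by
    have : 0 < CF * (r1 * v) := lt_of_lt_of_le hv0 hD1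
    exact pos_of_mul_pos_right this hCF0.le
  have hD2 : r1 * v ≤ CF * v := mul_le_mul_of_nonneg_right hrq.2 hv0.le
  have hδ2 : CT * δ ≤ 27 * A0 * ρ1 * (r1 * v) := by
    calc CT * δ ≤ CT * (27 * CF ^ 5 * (v * ρ1)) := mul_le_mul_of_nonneg_left hδ1 hCT0.le
      _ = (27 * CT * CF ^ 5 * ρ1) * v := by ring
      _ ≤ (27 * CT * CF ^ 5 * ρ1) * (CF * (r1 * v)) := mul_le_mul_of_nonneg_left hD1 (by positivity)
      _ = 27 * A0 * ρ1 * (r1 * v) := by rw [hA0]; ring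
  have hCl := hT h (r1 * v) (r2 * u) δ hδ0 hr1p (by
      have := mul_le_mul_of_nonneg_left hspd hCF0.le
      linarith)
    (by
      rw [abs_mul, abs_of_nonneg (by linarith [hrQ.1])]
      have h5 := mul_le_mul hrQ.2 hσ (abs_nonneg u) hCF0.le
      linarith)
    (by
      refine hδ2.trans ?_
      have : 27 * A0 * ρ1 * (r1 * v) ≤ 1 * (r1 * v) := mul_le_mul_of_nonneg_right (by linarith) hr1p.le
      linarith)
    (by
      have e : dist (h • I : ℍ) I = dist (q (sp k) • I : ℍ) ((ηη k : SL(2, ℝ)) • (Q (σσ k) • I : ℍ)) := by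
        rw [dist_comm (q (sp k) • I : ℍ), ← PIG_smul (q (sp k))⁻¹ _ (q (sp k) • I), inv_smul_smul, hh]
        simp only [mul_smul]
      rw [e, hδ]
      have : 0 ≤ 26 * CF ^ 5 * v ^ 2 := by positivity
      linarith)
    (by
      have e : dist ((h * aM (r2 * u)) • I : ℍ) (aM (r1 * v) • I) =
          dist ((ηη k : SL(2, ℝ)) • ((Q (σσ k) * aM (r2 * u)) • I : ℍ) : ℍ) ((q (sp k) * aM (r1 * v)) • I : ℍ) := by
        rw [← PIG_smul (q (sp k))⁻¹ _ ((q (sp k) * aM (r1 * v)) • I : ℍ), hh]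
        simp only [mul_smul, inv_smul_smul]
      rw [e]
      have t1 := dist_triangle4 ((ηη k : SL(2, ℝ)) • ((Q (σσ k) * aM (r2 * u)) • I : ℍ) : ℍ) ((ηη k : SL(2, ℝ)) • (Q (σσ k') • I : ℍ))
        (q (sp k') • I) ((q (sp k) * aM (r1 * v)) • I : ℍ)
      have t2 : dist ((ηη k : SL(2, ℝ)) • ((Q (σσ k) * aM (r2 * u)) • I : ℍ) : ℍ) ((ηη k : SL(2, ℝ)) • (Q (σσ k') • I : ℍ)) ≤ CF * u ^ 2 := by
        rw [PIG_smul, dist_comm]
        exact hP2
      have t3 : dist ((ηη k : SL(2, ℝ)) • (Q (σσ k') • I : ℍ) : ℍ) (q (sp k') • I) ≤ 5 * ρ / 4 := by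
        rw [dist_comm]
        exact c5'
      have t4 : CF * u ^ 2 ≤ 25 * CF ^ 5 * v ^ 2 := by
        calc CF * u ^ 2 ≤ CF * (25 * CF ^ 4 * v ^ 2) := mul_le_mul_of_nonneg_left hu2 hCF0.le
          _ = 25 * CF ^ 5 * v ^ 2 := by ring
      have t5 : CF * v ^ 2 ≤ CF ^ 5 * v ^ 2 := mul_le_mul_of_nonneg_right hCF15 (sq_nonneg v)
      rw [hδ]
      linarith)
  obtain ⟨n, hn, hnr⟩ := hCl
  -- the conclusion
  refine ⟨ii k * t + σσ k, ηη k, by positivity, ?_, n, hn, ?_⟩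
  · have h1 : ((ii k : ℝ) + 1) * t ≤ N * t := by
      apply mul_le_mul_of_nonneg_right _ ht0.le
      exact_mod_cast c1
    linarith
  · have hfl : ⌊(ii k * t + σσ k) / t⌋₊ = ii k := by
      rw [Nat.floor_eq_iff (by positivity)]
      constructor
      · rw [le_div_iff₀ ht0]; linarith
      · rw [div_lt_iff₀ ht0]; linarith
    have hfr : frZ D t w (ii k * t + σσ k) = Q (σσ k) := by
      unfold frZ
      rw [hfl]
      simp only [hQ]
      congr 1
      ring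
    have hε : CT * δ / (r1 * v) ≤ 27 * A0 * ρ1 := by
      rw [div_le_iff₀ hr1p]
      exact hδ2
    have he : |sp k - s'| ≤ ρ1 := by
      rw [abs_le]; constructor <;> linarith
    have hx := hOq.nr s' (sp k - s') ρ1 hρ1 (by linarith) he
    have e5 : s' + (sp k - s') = sp k := by ring
    rw [e5] at hx
    have hfin := PIV_nr _ _ _ _ hx hnr
    have hEq : (frZ D t w' s')⁻¹ * ((ηη k : SL(2, ℝ)) * frZ D t w (ii k * t + σσ k)) * kM (n * (Real.pi / 2)) =
        (q s')⁻¹ * q (sp k) * (1⁻¹ * h * kM (n * (Real.pi / 2))) := by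
      rw [hfr, hfr', hh, inv_one, one_mul]
      group
    rw [hEq]
    intro x y
    refine lt_of_lt_of_le (hfin x y) ?_
    have hε0 : 0 ≤ CT * δ / (r1 * v) := by positivity
    have e6 : 2 * (CF * ρ1 * (CT * δ / (r1 * v))) ≤ 2 * (CT * δ / (r1 * v)) := by
      have : CF * ρ1 * (CT * δ / (r1 * v)) ≤ 1 * (CT * δ / (r1 * v)) := mul_le_mul_of_nonneg_right (by linarith) hε0
      linarith
    have e7 := mul_le_mul_of_nonneg_right hC1 hρ1.le
    linarith

end Pool.Agent.VN
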